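import Pool.Agent.Helper31.CY.St1

/-!
# Project CY, module NET: the meridian section is a network
-/

set_option autoImplicit false

open Set Topology Filter

namespace Pool.Agent.Helper37.CY

open Pool.Agent.Helper31.CY

private theorem pt0 (a b c : ℝ) : pt a b c 0 = a := rfl
private theorem pt1 (a b c : ℝ) : pt a b c 1 = b := rfl
private theorem pt2 (a b c : ℝ) : pt a b c 2 = c := rfl

private theorem mem_circ {r z r0 h0 : ℝ} (hr : 0 ≤ r) (h : 0 < r0) :
    pt r 0 z ∈ circ r0 h0 ↔ (r, z) = (r0, h0) := by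
  rw [circ, Set.mem_ofPred_eq, pt0, pt1, pt2, Prod.mk.injEq]
  constructor
  · rintro ⟨h1, h2⟩
    refine ⟨?_, h2⟩
    nlinarith [mul_self_nonneg (r - r0), mul_self_nonneg (r + r0)]
  · rintro ⟨h1, h2⟩
    subst h1
    exact ⟨by ring, h2⟩

private theorem td_ne (i : Fin 3) : td i ≠ 0 := by
  intro h
  fin_cases i
  · have := congrArg Prod.fst h
    simp [td] at this
  · have := congrArg Prod.fst h
    simp [td] at this
  · have := congrArg Prod.fst h
    simp [td] at this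

private theorem sq3 : Real.sqrt 3 ^ 2 = 3 := Real.sq_sqrt (by norm_num)
private theorem sq3p : 0 < Real.sqrt 3 := Real.sqrt_pos.2 (by norm_num)

private theorem td_norm (i : Fin 3) : (td i).1 ^ 2 + (td i).2 ^ 2 = 1 := by
  have h := sq3
  fin_cases i
  · simp [td]
  · simp only [td, Fin.mk_one, Matrix.cons_val_one, Matrix.cons_val_zero]
    nlinarith
  · simp only [td, Fin.reduceFinMk, Matrix.cons_val]
    nlinarith

private theorem td_sum : td 0 + td 1 + td 2 = 0 := by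
  simp only [td, Matrix.cons_val_zero, Matrix.cons_val_one, Matrix.cons_val]
  ext
  · simp
    norm_num
  · simp

private theorem td_ray (i j : Fin 3) (hij : i ≠ j) (s t : ℝ) (hs : 0 < s) (ht : 0 ≤ t) :
    s • td i ≠ t • td j := by
  intro h
  have h3 := sq3p
  have h1 : s * (td i).1 = t * (td j).1 := congrArg Prod.fst h
  have h2 : s * (td i).2 = t * (td j).2 := congrArg Prod.snd h
  fin_cases i <;> fin_cases j
  · exact hij rfl
  · simp [td] at h1
    linarith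
  · simp [td] at h1
    linarith
  · simp [td] at h2
    exact absurd h2 hs.ne'
  · exact hij rfl
  · simp [td] at h2
    have h4 : (s + t) * Real.sqrt 3 = 0 := by linarith
    have h5 : 0 < (s + t) * Real.sqrt 3 := mul_pos (by linarith) h3
    linarith
  · simp [td] at h2
    exact absurd h2 hs.ne'
  · simp [td] at h2
    have h4 : (s + t) * Real.sqrt 3 = 0 := by linarith
    have h5 : 0 < (s + t) * Real.sqrt 3 := mul_pos (by linarith) h3
    linarith
  · exact hij rfl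

private theorem box_mono {q : ℝ × ℝ} {ε δ : ℝ} (h : ε ≤ δ) {x : ℝ × ℝ} (hx : x ∈ box q ε) :
    x ∈ box q δ := ⟨lt_of_lt_of_le hx.1 h, lt_of_lt_of_le hx.2 h⟩

/-- a point can be avoided by a box -/
private theorem box_avoid (q p : ℝ × ℝ) : ∃ ε : ℝ, 0 < ε ∧ ∀ x ∈ box q ε, x ≠ q → x ≠ p := by
  by_cases hqp : q = p
  · exact ⟨1, one_pos, fun x _ hx => hqp ▸ hx⟩
  · have h : 0 < max |p.1 - q.1| |p.2 - q.2| := by
      by_contra hneg
      push Not at hneg
      have h1 := (le_max_left _ _).trans hneg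
      have h2 := (le_max_right _ _).trans hneg
      apply hqp
      have h3 : p.1 - q.1 = 0 := abs_nonpos_iff.1 h1
      have h4 : p.2 - q.2 = 0 := abs_nonpos_iff.1 h2
      exact Prod.ext (by linarith) (by linarith)
    refine ⟨_, h, fun x hx _ hxp => ?_⟩
    subst hxp
    obtain ⟨h1, h2⟩ := hx
    rcases max_cases |x.1 - q.1| |x.2 - q.2| with h3 | h3
    · rw [h3.1] at h1
      exact lt_irrefl _ h1
    · rw [h3.1] at h2
      exact lt_irrefl _ h2

private theorem sq_zero {w : ℝ × ℝ} (h : w.1 ^ 2 + w.2 ^ 2 = 0) : w = 0 := by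
  obtain ⟨a, b⟩ := w
  have h1 := sq_nonneg a
  have h2 := sq_nonneg b
  have h3 : a ^ 2 + b ^ 2 = 0 := h
  have h4 : a = 0 := pow_eq_zero_iff (two_ne_zero) |>.1 (by linarith)
  have h5 : b = 0 := pow_eq_zero_iff (two_ne_zero) |>.1 (by linarith)
  rw [h4, h5]
  rfl

theorem hNET (hMER : StMER) (hREG : StREG) (hCHT : StCHT) (hNBR : StNBR) (hLEG : StLEG)
    (hTYP : StTYP) : StNET := by
  intro S r0 r1 h hr0 hr1 hh hS hrot
  have memN : ∀ q : ℝ × ℝ, q ∈ Mer S ↔ 0 ≤ q.1 ∧ pt q.1 0 q.2 ∈ S := fun q => Iff.rfl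
  -- points off the boundary
  have hΓ : ∀ q : ℝ × ℝ, 0 ≤ q.1 → q ≠ (r0, 0) → q ≠ (r1, h) →
      pt q.1 0 q.2 ∉ circ r0 0 ∪ circ r1 h := by
    rintro ⟨r, z⟩ hq h0 h1 (hc | hc)
    · exact h0 ((mem_circ hq hr0).1 hc)
    · exact h1 ((mem_circ hq hr1).1 hc)
  have hcls : ∀ q : ℝ × ℝ, 0 < q.1 → q ∈ Mer S → q ≠ (r0, 0) → q ≠ (r1, h) →
      CatAt (Mer S) q ∨ HorAt (Mer S) q ∨ ModelAt S Ycone (pt q.1 0 q.2) := by
    intro q hq hqN h0 h1
    have hp := ((memN q).1 hqN).2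
    rcases hS.int _ hp (hΓ q hq.le h0 h1) with hR | hY | hT
    · rcases (hREG S hrot q.1 q.2 hp hR).1 hq with hc | hc
      · exact Or.inl hc
      · exact Or.inr (Or.inl hc)
    · exact Or.inr (Or.inr hY)
    · exact absurd hT (hTYP S hrot _ hp).1
  -- the neighbourhood lemma
  have hnb : ∀ (q : ℝ × ℝ) (k : ℕ) (d : Fin k → ℝ × ℝ) (g : ℝ × ℝ → ℝ × ℝ), 0 < q.1 →
      RayAt (Mer S) q d g → (∀ i, d i ≠ 0) →
      (∀ i j, i ≠ j → ∀ s t : ℝ, 0 < s → 0 ≤ t → s • d i ≠ t • d j) →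
      ∃ ε : ℝ, 0 < ε ∧ ∀ x ∈ box q ε, x ∈ Mer S → x ≠ q → CatAt (Mer S) x ∨ HorAt (Mer S) x := by
    intro q k d g hq hray hd0 hd
    obtain ⟨e1, he1, H1⟩ := hNBR (Mer S) q k d g hray hd0 hd
    obtain ⟨e2, he2, H2⟩ := box_avoid q (r0, 0)
    obtain ⟨e3, he3, H3⟩ := box_avoid q (r1, h)
    refine ⟨min (min e1 q.1) (min e2 e3), by positivity, fun x hx hxN hxq => ?_⟩
    have hx1 : x ∈ box q e1 := box_mono ((min_le_left _ _).trans (min_le_left _ _)) hx
    have hx2 : x ∈ box q e2 := box_mono ((min_le_right _ _).trans (min_le_left _ _)) hx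
    have hx3 : x ∈ box q e3 := box_mono ((min_le_right _ _).trans (min_le_right _ _)) hx
    have hx4 : x ∈ box q q.1 := box_mono ((min_le_left _ _).trans (min_le_right _ _)) hx
    have hx0 : 0 < x.1 := by
      have := (abs_lt.1 hx4.1).1
      linarith
    rcases hcls x hx0 hxN (H2 x hx2 hxq) (H3 x hx3 hxq) with hc | hc | hc
    · exact Or.inl hc
    · exact Or.inr hc
    · have := (hCHT S hrot x.1 x.2 hx0 ((memN x).1 hxN).2).1 hc
      exact absurd this (H1 x hx1 hxN hxq)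
  -- Y points
  have hY : ∀ q : ℝ × ℝ, 0 < q.1 → q ∈ Mer S → ModelAt S Ycone (pt q.1 0 q.2) →
      YAt (Mer S) q := by
    intro q hq hqN hm
    obtain ⟨g, hray, hiso⟩ := (hCHT S hrot q.1 q.2 hq ((memN q).1 hqN).2).1 hm
    obtain ⟨v, hv, ε, hε, H⟩ := hLEG (Mer S) q 3 td g hray hq td_ne
      (hnb q 3 td g hq hray td_ne td_ray)
    refine ⟨v, fun i => ?_, ?_, ε, hε, H⟩
    · rw [← hiso, hv]
      exact td_norm i
    · have h1 : fderiv ℝ g q (v 0 + v 1 + v 2) = 0 := by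
        rw [map_add, map_add, hv, hv, hv]
        exact td_sum
      have h2 := hiso (v 0 + v 1 + v 2)
      have h3 : fderiv ℝ g (q.1, q.2) (v 0 + v 1 + v 2) = 0 := h1
      rw [h3] at h2
      have h4 : (v 0 + v 1 + v 2).1 ^ 2 + (v 0 + v 1 + v 2).2 ^ 2 = 0 := by
        rw [← h2]
        simp
      exact sq_zero h4
  -- end points
  have hE : ∀ q : ℝ × ℝ, 0 < q.1 → q ∈ Mer S → BdyP S (pt q.1 0 q.2) → EndAt (Mer S) q := by
    intro q hq hqN hb
    obtain ⟨g, hray⟩ := (hCHT S hrot q.1 q.2 hq ((memN q).1 hqN).2).2 hb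
    have hd0 : ∀ i, (![((1 : ℝ), (0 : ℝ))] : Fin 1 → ℝ × ℝ) i ≠ 0 := by
      intro i hi
      have h1 : i = 0 := Subsingleton.elim _ _
      subst h1
      have := congrArg Prod.fst hi
      simp at this
    obtain ⟨v, hv, ε, hε, H⟩ := hLEG (Mer S) q 1 _ g hray hq hd0
      (hnb q 1 _ g hq hray hd0 (fun i j hij => absurd (Subsingleton.elim i j) hij))
    refine ⟨v 0, ?_, ε, hε, fun x hx => ?_⟩
    · intro h0
      have h1 := hv 0
      rw [h0, map_zero] at h1
      exact hd0 0 h1.symm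
    · rw [H x hx]
      constructor
      · rintro ⟨i, hi⟩
        have h1 : i = 0 := Subsingleton.elim _ _
        subst h1
        exact hi
      · intro hx
        exact ⟨0, hx⟩
  have hm0 : pt r0 0 0 ∈ circ r0 0 ∪ circ r1 h := Or.inl ((mem_circ hr0.le hr0).2 rfl)
  have hm1 : pt r1 0 h ∈ circ r0 0 ∪ circ r1 h := Or.inr ((mem_circ hr1.le hr1).2 rfl)
  have hn0 : (r0, (0 : ℝ)) ∈ Mer S := ⟨hr0.le, hS.sub hm0⟩
  have hn1 : (r1, h) ∈ Mer S := ⟨hr1.le, hS.sub hm1⟩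
  refine ⟨⟨hh, hr0, hr1, (hMER S hrot).1 hS.cpt, fun q hq => hq.1, hn0, hn1,
    hE _ hr0 hn0 (hS.bdy _ hm0), hE _ hr1 hn1 (hS.bdy _ hm1), ?_, ?_⟩, ?_⟩
  · intro q hq h0 h1 hq1
    rcases hcls q hq1 hq h0 h1 with hc | hc | hc
    · exact Or.inl hc
    · exact Or.inr (Or.inl hc)
    · exact Or.inr (Or.inr (hY q hq1 hq hc))
  · intro t ht
    have hp : pt 0 0 t ∈ S := ht.2
    have hg : pt (0 : ℝ) 0 t ∉ circ r0 0 ∪ circ r1 h := by
      refine hΓ (0, t) le_rfl ?_ ?_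
      · intro he
        exact hr0.ne (congrArg Prod.fst he)
      · intro he
        exact hr1.ne (congrArg Prod.fst he)
    rcases hS.int _ hp hg with hR | hY' | hT
    · exact (hREG S hrot 0 t hp hR).2 rfl
    · exact absurd hY' ((hTYP S hrot _ hp).2.1 rfl rfl)
    · exact absurd hT (hTYP S hrot _ hp).1
  · intro r z hr hp _ hm
    exact hY (r, z) hr ⟨hr.le, hp⟩ hm

end Pool.Agent.Helper37.CY
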